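import Pool.Agent.Q92.Ent.Main

/-!
# Vanishing of the algebraic entropy (MP_60863d_al, Q1)

By the infimum rule `H_alg(α, X) = inf_F log |T_F(α, X)| / |F|` over all the finite nonempty subsets
`F` of `G`. If `E` consists of representatives of `n` right cosets of `H` and `Y = T_E(α, X)` then
`T_F(α|H, Y) = T_{FE}(α, X)` and `|FE| = n |F|` for `F ⊆ H`, so that
`H_alg(α|H, Y) ≥ n H_alg(α, X)`.
-/

set_option autoImplicit false

namespace Pool.Agent.Results.MP_60863d_al.HalgVanishes

open Pool.Agent.Q92.Ent

universe u v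

/-- Let `G` be an amenable group acting on the abelian group `A` and let `H` be a subgroup of `G`
of infinite index (`H.index = 0` in Mathlib's convention). Then `H` is amenable, the limits defining
the entropies exist for `G` and `H`, and if `h_alg(α|H) < ∞` then `h_alg(α) = 0`. -/
theorem result {G : Type u} [Group G] (hG : IsAmenable G) {A : Type v} [AddCommGroup A]
    [DistribMulAction G A] (H : Subgroup G) (hH : H.index = 0) :
    (IsAmenable H ∧ ∀ X : Finset A, X.Nonempty → (∃ r, IsHalg G X r) ∧ ∃ r, IsHalg H X r) ∧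
      (halg H A < ⊤ → halg G A = 0) :=
  ⟨⟨hG.subgroup H, fun _ hX => ⟨⟨_, isHalg_infH hX⟩, ⟨_, isHalg_infH hX⟩⟩⟩,
    halg_eq_zero hG H hH⟩

end Pool.Agent.Results.MP_60863d_al.HalgVanishes
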